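import Pool.Agent.H38.NP.Defs

/-!
List colouring and weighted `(H, C, K)`-colouring.
-/

namespace Pool.Agent.H38.Wcol

/-- `χ` is an `H`-colouring of the graph on `Fin n` with edge list `E` (loops allowed). -/
def IsHom {W : Type} (H : W → W → Prop) (G : ℕ × List (ℕ × ℕ)) (χ : Fin G.1 → W) : Prop :=
  ∀ u v : Fin G.1, (u.val, v.val) ∈ G.2 → H (χ u) (χ v)

/-- List `F`-colouring: the input is a graph and one list of vertices of `F` per vertex. -/
def ListCol {q : ℕ} (F : Fin q → Fin q → Prop) (p : (ℕ × List (ℕ × ℕ)) × List (List ℕ)) : Prop :=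
  ∃ χ, IsHom F p.1 χ ∧ ∀ u : Fin p.1.1, (χ u).val ∈ p.2.getD u []

/-- `(H, C, K)`-colouring, where `C` is the right summand of the vertex set of `H`. -/
def WCol {q r : ℕ} (H : Fin q ⊕ Fin r → Fin q ⊕ Fin r → Prop) (K : Fin r → ℕ)
    (G : ℕ × List (ℕ × ℕ)) : Prop :=
  ∃ χ, IsHom H G χ ∧ ∀ i, (Finset.univ.filter fun u => χ u = Sum.inr i).card = K i

end Pool.Agent.H38.Wcol
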