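import Pool.Agent.H38.Wcol.Defs
import Pool.Agent.H38.NP.Clos

/-!
List `F`-colouring reduces to `(H, C, K)`-colouring for a weighted extension of `F`.
-/

namespace Pool.Agent.H38.Wcol

open Pool.Agent.H38.NP

theorem nph_of_npHard {α : Type} [Enc α] [Dec α] {P : α → Prop} (h : NPHard (lang P)) (a : α) (ha : ¬ P a) :
    NPH (fun _ => True) P := fun A hA => by
  obtain ⟨f, hf, e⟩ := h A hA
  have h1 := H36.Sim.pt_of_polyTime hf
  refine ⟨fun x => if raw (dec ⟨f x.val⟩ : α) = ⟨f x.val⟩ then dec ⟨f x.val⟩ else a,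
    PT.ite (PT.eq (Dec.pt.comp h1).raw h1) (Dec.pt.comp h1) (PT.const _), fun x => ⟨trivial, ?_⟩⟩
  rw [e, mem_lang_iff ⟨f x.val⟩]
  simp only
  split_ifs with c <;> simp [c, ha]

def subs (q : ℕ) : List (List ℕ) := (List.range q).sublists

def rr (q : ℕ) : ℕ := 2 * (subs q).length + 1

def R (x y : ℕ) : Prop := (x % 2 = 0 ∧ y = x + 2) ∨ (x % 2 = 1 ∧ (y = x ∨ y = x + 1))

instance (x y) : Decidable (R x y) := by unfold R; infer_instance

def Hx {q : ℕ} (F : Fin q → Fin q → Prop) : Fin q ⊕ Fin (rr q) → Fin q ⊕ Fin (rr q) → Prop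
  | .inl u, .inl v => F u v
  | .inl u, .inr y => y.val % 2 = 1 ∧ u.val ∈ (subs q).getD (y / 2) []
  | .inr y, .inl u => y.val % 2 = 1 ∧ u.val ∈ (subs q).getD (y / 2) []
  | .inr x, .inr y => R x y ∨ R y x

def ix (q : ℕ) (l : List ℕ) : ℕ := (subs q).idxOf ((List.range q).filter (· ∈ l))

theorem ix_lt (q l) : ix q l < (subs q).length :=
  List.idxOf_lt_length_of_mem (List.mem_sublists.2 List.filter_sublist)

theorem mem_ix {q l} (u : Fin q) : u.val ∈ (subs q).getD (ix q l) [] ↔ u.val ∈ l := by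
  rw [List.getD_eq_getElem _ _ (ix_lt q l)]
  simp [ix]

def red (q : ℕ) (p : (ℕ × List (ℕ × ℕ)) × List (List ℕ)) : ℕ × List (ℕ × ℕ) :=
  (rr q + p.1.1, ((List.range (rr q)).product (List.range (rr q))).filter (fun e => decide (R e.1 e.2)) ++
    (p.1.2.map (fun e => (rr q + e.1, rr q + e.2)) ++
      (List.range p.1.1).map fun v => (rr q + v, 2 * ix q (p.2.getD v []) + 1)))

theorem red_iff {q} (F : Fin q → Fin q → Prop) (p) : ListCol F p ↔ WCol (Hx F) (fun _ => 1) (red q p) := by
  obtain ⟨⟨n, E⟩, L⟩ := p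
  have hr : rr q = 2 * (subs q).length + 1 := rfl
  have me : ∀ x y, (x, y) ∈ (red q ((n, E), L)).2 ↔ (x < rr q ∧ y < rr q ∧ R x y) ∨
      (∃ e ∈ E, x = rr q + e.1 ∧ y = rr q + e.2) ∨ ∃ v < n, x = rr q + v ∧ y = 2 * ix q (L.getD v []) + 1 := by
    simp [red, and_assoc, eq_comm]
  constructor
  · rintro ⟨χ, h1, h2⟩
    refine ⟨fun x => if h : x.val < rr q then .inr ⟨x, h⟩ else
      .inl (χ ⟨x - rr q, by have : x.val < rr q + n := x.2; simp only; omega⟩), fun ⟨x, hx⟩ ⟨y, hy⟩ h => ?_,
      fun i => Finset.card_eq_one.2 ⟨⟨i, Nat.lt_add_right _ i.2⟩, ?_⟩⟩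
    · rcases (me _ _).1 h with ⟨a, b, c⟩ | ⟨e, he, rfl, rfl⟩ | ⟨v, hv, rfl, rfl⟩
      · simp only [dif_pos a, dif_pos b]; exact .inl c
      · simp only [Nat.not_lt.2 (Nat.le_add_right _ _), dite_false]
        exact h1 _ _ (by simpa using he)
      · have := ix_lt q (L.getD v [])
        simp only [Nat.not_lt.2 (Nat.le_add_right _ _), dite_false]
        rw [dif_pos (by omega)]
        refine ⟨by simp only; omega, ?_⟩
        simp only [show ∀ a, (2 * a + 1) / 2 = a by omega, mem_ix]
        simpa using h2 ⟨v, hv⟩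
    · ext x
      simp only [Finset.mem_filter, Finset.mem_univ, true_and, Finset.mem_singleton]
      split_ifs with h <;> simp [Fin.ext_iff]
      omega
  · rintro ⟨χ, h1, h2⟩
    choose g hg using fun i => Finset.card_eq_one.1 (h2 i)
    have hg : ∀ i x, χ x = .inr i ↔ x = g i := fun i x => by simpa using Finset.ext_iff.1 (hg i) x
    let s : ∀ x, x < rr q → Fin (rr q + n) := fun x h => ⟨x, Nat.lt_add_right _ h⟩
    have ed : ∀ x hx y hy, R x y → Hx F (χ (s x hx)) (χ (s y hy)) := fun x hx y hy h =>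
      h1 _ _ ((me _ _).2 (.inl ⟨hx, hy, h⟩))
    have hs : 0 < (subs q).length := Nat.zero_lt_of_lt (ix_lt q [])
    have z0 : χ (s 0 (by omega)) = .inr ⟨0, by omega⟩ := by
      have e := (hg ⟨0, by omega⟩ _).2 rfl
      generalize g ⟨0, by omega⟩ = y at e
      have k : ∀ x hx, x % 2 = 1 → ¬ (Hx F (χ y) (χ (s x hx)) ∨ Hx F (χ (s x hx)) (χ y)) := fun x hx o => by
        have := ed x hx x hx (by simp [R, o])
        rw [e]
        generalize χ (s x hx) = w at *
        rcases w with w | w <;> simp only [Hx, R] at * <;> omega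
      obtain ⟨y, hy⟩ := y
      by_cases c : y < rr q
      · by_cases c0 : y = 0
        · subst c0; exact e
        by_cases c1 : y % 2 = 1
        · exact (k y c c1 (.inl (ed y c y c (by simp [R, c1])))).elim
        · exact (k (y - 1) (by omega) (by omega) (.inr (ed _ (by omega) y c (by unfold R; omega)))).elim
      · have := ix_lt q (L.getD (y - rr q) [])
        have : y < rr q + n := hy
        exact (k (2 * ix q (L.getD (y - rr q) []) + 1) (by omega) (by omega)
          (.inl (h1 _ _ ((me _ _).2 (.inr (.inr ⟨y - rr q, by omega, by simp only; omega, rfl⟩)))))).elim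
    have z : ∀ i, ∀ x ≤ 2 * i, ∀ hx, χ (s x hx) = .inr ⟨x, hx⟩ := fun i => by
      induction i with
      | zero => intro x h hx; obtain rfl : x = 0 := by omega
                exact z0
      | succ i ih =>
        have a : ∀ hx, χ (s (2 * i + 2) hx) = .inr ⟨_, hx⟩ := fun hx => by
          have := ed (2 * i) (by omega) _ hx (by unfold R; omega)
          rw [ih _ le_rfl (by omega)] at this
          rcases e : χ (s (2 * i + 2) hx) with w | w <;> rw [e] at this <;> simp only [Hx, R] at this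
          · omega
          by_cases c : w.val ≤ 2 * i
          · have := congrArg Fin.val (((hg w _).1 e).trans ((hg w _).1 (ih w c w.2)).symm)
            simp only [s] at this; omega
          · congr 1; ext; simp only; omega
        intro x h hx
        by_cases c : x ≤ 2 * i
        · exact ih x c hx
        by_cases c' : x = 2 * i + 2
        · subst c'; exact a hx
        have b := ed x hx x hx (by unfold R; omega)
        have := ed x hx (2 * i + 2) (by omega) (by unfold R; omega)
        rw [a (by omega)] at this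
        rcases e : χ (s x hx) with w | w <;> rw [e] at this b <;> simp only [Hx, R] at this b
        · omega
        · congr 1; ext; simp only; omega
    have : ∀ v : Fin n, ∃ f, χ ⟨rr q + v, Nat.add_lt_add_left v.2 _⟩ = .inl f := fun v => by
      rcases e : χ ⟨rr q + v, Nat.add_lt_add_left v.2 _⟩ with w | w
      · exact ⟨w, rfl⟩
      · have := congrArg Fin.val (((hg w _).1 e).trans ((hg w _).1 (z w w (by omega) w.2)).symm)
        simp only [s] at this; omega
    choose c hc using this
    refine ⟨c, fun u v h => ?_, fun u => ?_⟩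
    · have := h1 ⟨rr q + u, Nat.add_lt_add_left u.2 _⟩ ⟨rr q + v, Nat.add_lt_add_left v.2 _⟩
        ((me _ _).2 (.inr (.inl ⟨_, h, rfl, rfl⟩)))
      rwa [hc, hc] at this
    · have := ix_lt q (L.getD u [])
      have := h1 ⟨rr q + u, Nat.add_lt_add_left u.2 _⟩ (s (2 * ix q (L.getD u []) + 1) (by omega))
        ((me _ _).2 (.inr (.inr ⟨u, u.2, rfl, rfl⟩)))
      rw [hc, z _ _ (Nat.le_mul_of_pos_left _ (by omega)) (by omega)] at this
      simpa only [show ∀ a, (2 * a + 1) / 2 = a by omega, mem_ix] using this.2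

theorem wcol_np {q r} (H : Fin q ⊕ Fin r → Fin q ⊕ Fin r → Prop) : InNP (lang (WCol H fun _ => 1)) := by
  classical
  let cd : Fin q ⊕ Fin r → ℕ := fun x => (finSumFinEquiv x).val
  have ci : Function.Injective cd := fun x y h => finSumFinEquiv.injective (Fin.ext h)
  let T := (Finset.univ.filter fun e : _ × _ => H e.1 e.2).toList.map fun e => (cd e.1, cd e.2)
  have hT : ∀ x y, (cd x, cd y) ∈ T ↔ H x y := fun x y => by simp [T, ci.eq_iff]
  generalize T = T at hT
  refine inNP_lang (fun G (w : List ℕ) => (List.range G.1).all (fun u => decide (w.getD u 0 < q + r)) &&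
    ((List.range G.1).all (fun u => (List.range G.1).all fun v =>
      (!decide ((u, v) ∈ G.2) || decide ((w.getD u 0, w.getD v 0) ∈ T)) &&
        (decide (w.getD u 0 < q) || decide (w.getD u 0 ≠ w.getD v 0) || decide (u = v))) &&
    (List.range r).all fun i => (List.range G.1).any fun u => decide (w.getD u 0 = q + i)))
    (by fun_prop) (B := fun G => (2 * (q + r) + 1) * G.1) (PT.nat_pb (by fun_prop)) ?_ ?_
  · rintro G ⟨χ, h1, h2⟩
    choose g hg using fun i => Finset.card_eq_one.1 (h2 i)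
    have hg : ∀ i x, χ x = .inr i ↔ x = g i := fun i x => by simpa using Finset.ext_iff.1 (hg i) x
    have e : ∀ u (h : u < G.1), (List.ofFn (cd ∘ χ)).getD u 0 = cd (χ ⟨u, h⟩) := fun u h => by simp [h]
    refine ⟨List.ofFn (cd ∘ χ), (sz_le_of_forall (B := q + r) fun a ha => ?_).trans (by simp [mul_comm]), ?_⟩
    · obtain ⟨u, rfl⟩ := List.mem_ofFn.1 ha
      exact (finSumFinEquiv (χ u)).2.le.trans' (by simp [cd])
    simp only [Bool.and_eq_true, List.all_eq_true, List.any_eq_true, List.mem_range, decide_eq_true_eq,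
      Bool.or_eq_true, Bool.not_eq_true', decide_eq_false_iff_not]
    refine ⟨fun u hu => e u hu ▸ (finSumFinEquiv _).2, fun u hu v hv => ?_, fun i hi =>
      ⟨g ⟨i, hi⟩, (g _).2, by rw [e _ (g _).2, (hg _ _).2 rfl]; rfl⟩⟩
    rw [e u hu, e v hv, hT, ci.ne_iff]
    refine ⟨or_iff_not_imp_left.2 fun h => h1 _ _ (not_not.1 h), ?_⟩
    rcases c : χ ⟨u, hu⟩ with a | a
    · exact .inl (.inl a.2)
    · by_cases d : χ ⟨v, hv⟩ = .inr a
      · exact .inr (Fin.mk.inj (((hg _ _).1 c).trans ((hg _ _).1 d).symm))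
      · exact .inl (.inr (Ne.symm d))
  · intro G w h
    simp only [Bool.and_eq_true, List.all_eq_true, List.any_eq_true, List.mem_range, decide_eq_true_eq,
      Bool.or_eq_true, Bool.not_eq_true', decide_eq_false_iff_not] at h
    obtain ⟨h1, h2, h3⟩ := h
    have e : ∀ u : Fin G.1, ∃ x, cd x = w.getD u 0 := fun u =>
      ⟨finSumFinEquiv.symm ⟨_, h1 u u.2⟩, by simp [cd]⟩
    choose χ e using e
    refine ⟨χ, fun u v h => (hT _ _).1 (by rw [e, e]; exact (h2 u u.2 v v.2).1.resolve_left (not_not.2 h)),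
      fun i => Finset.card_eq_one.2 ?_⟩
    obtain ⟨u, hu, a⟩ := h3 i i.2
    refine ⟨⟨u, hu⟩, Finset.ext fun v => ?_⟩
    have := (h2 u hu v v.2).2
    have b : cd (.inr i) = q + i := rfl
    simp only [Finset.mem_filter, Finset.mem_univ, true_and, Finset.mem_singleton, ← ci.eq_iff, e, b,
      Fin.ext_iff]
    exact ⟨fun _ => by omega, fun c => c ▸ a⟩

theorem main {q : ℕ} (F : Fin q → Fin q → Prop) (h : NPHard (lang (ListCol F))) :
    NPHard (lang (WCol (Hx F) fun _ => 1)) :=
  ((nph_of_npHard h ((1, []), []) fun ⟨_, _, h⟩ => by simpa using h ⟨0, one_pos⟩).reduce (C' := fun _ => True)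
    (red q) (by unfold red R ix; fun_prop) fun p _ => ⟨trivial, red_iff F p⟩).npHard fun _ _ => Iff.rfl

end Pool.Agent.H38.Wcol
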